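import Pool.Agent.Helper89.SP.Defs

/-!
Project SP (MP_66ebcc_gt), module SP-09e: the numerical fact `fact_T3_5`.

With `F = (2 - t)⁴ / 12`, `A = 1 - t p` and
`D₀(p,q,r,t) = 8 q r F - A ((p+q+r-t)² + (1-p²-q²-r²)/3)` the fact says that `D₀` exceeds two small
error terms.  By concavity in `q + r` the minimum of `D₀` is attained on one of three two-parameter
families, on which the Bernstein coefficients (of bidegree `(3,4)`) of `D₀ - δ` are all positive.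
-/

set_option autoImplicit false

namespace Pool.Agent.Helper8.SPNum

theorem t35_f1a {t p : ℝ} (hp0 : (211 / 400) ≤ p) (hp1 : p ≤ (31 / 50)) (ht0 : (6 / 5) ≤ t)
    (ht1 : t ≤ (13 / 10)) : (3 / 5000) ≤ 8 * (((15475 / 10000 - p) / 2) * ((15475 / 10000 - p) / 2)) * ((2 - t) ^ 4 / 12) - (1 - t * p) * ((p + ((15475 / 10000 - p) / 2) + ((15475 / 10000 - p) / 2) - t) ^ 2 + (1 - p ^ 2 - ((15475 / 10000 - p) / 2) ^ 2 - ((15475 / 10000 - p) / 2) ^ 2) / 3) := by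
  have h : 8 * (((15475 / 10000 - p) / 2) * ((15475 / 10000 - p) / 2)) * ((2 - t) ^ 4 / 12) - (1 - t * p) * ((p + ((15475 / 10000 - p) / 2) + ((15475 / 10000 - p) / 2) - t) ^ 2 + (1 - p ^ 2 - ((15475 / 10000 - p) / 2) ^ 2 - ((15475 / 10000 - p) / 2) ^ 2) / 3) - (3 / 5000) =
      (929009600 / 50653) * ((p - (211 / 400)) ^ 0 * ((31 / 50) - p) ^ 3 * ((t - (6 / 5)) ^ 0 * ((13 / 10) - t) ^ 4)) +
      (3657083600 / 50653) * ((p - (211 / 400)) ^ 0 * ((31 / 50) - p) ^ 3 * ((t - (6 / 5)) ^ 1 * ((13 / 10) - t) ^ 3)) +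
      (4963551600 / 50653) * ((p - (211 / 400)) ^ 0 * ((31 / 50) - p) ^ 3 * ((t - (6 / 5)) ^ 2 * ((13 / 10) - t) ^ 2)) +
      (2654367600 / 50653) * ((p - (211 / 400)) ^ 0 * ((31 / 50) - p) ^ 3 * ((t - (6 / 5)) ^ 3 * ((13 / 10) - t) ^ 1)) +
      (429987600 / 50653) * ((p - (211 / 400)) ^ 0 * ((31 / 50) - p) ^ 3 * ((t - (6 / 5)) ^ 4 * ((13 / 10) - t) ^ 0)) +
      (24441464000 / 151959) * ((p - (211 / 400)) ^ 1 * ((31 / 50) - p) ^ 2 * ((t - (6 / 5)) ^ 0 * ((13 / 10) - t) ^ 4)) +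
      (32672846000 / 50653) * ((p - (211 / 400)) ^ 1 * ((31 / 50) - p) ^ 2 * ((t - (6 / 5)) ^ 1 * ((13 / 10) - t) ^ 3)) +
      (47360730000 / 50653) * ((p - (211 / 400)) ^ 1 * ((31 / 50) - p) ^ 2 * ((t - (6 / 5)) ^ 2 * ((13 / 10) - t) ^ 2)) +
      (88087742000 / 151959) * ((p - (211 / 400)) ^ 1 * ((31 / 50) - p) ^ 2 * ((t - (6 / 5)) ^ 3 * ((13 / 10) - t) ^ 1)) +
      (6558822000 / 50653) * ((p - (211 / 400)) ^ 1 * ((31 / 50) - p) ^ 2 * ((t - (6 / 5)) ^ 4 * ((13 / 10) - t) ^ 0)) +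
      (14809290800 / 50653) * ((p - (211 / 400)) ^ 2 * ((31 / 50) - p) ^ 1 * ((t - (6 / 5)) ^ 0 * ((13 / 10) - t) ^ 4)) +
      (177734249900 / 151959) * ((p - (211 / 400)) ^ 2 * ((31 / 50) - p) ^ 1 * ((t - (6 / 5)) ^ 1 * ((13 / 10) - t) ^ 3)) +
      (86664716300 / 50653) * ((p - (211 / 400)) ^ 2 * ((31 / 50) - p) ^ 1 * ((t - (6 / 5)) ^ 2 * ((13 / 10) - t) ^ 2)) +
      (165072224900 / 151959) * ((p - (211 / 400)) ^ 2 * ((31 / 50) - p) ^ 1 * ((t - (6 / 5)) ^ 3 * ((13 / 10) - t) ^ 1)) +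
      (12824176300 / 50653) * ((p - (211 / 400)) ^ 2 * ((31 / 50) - p) ^ 1 * ((t - (6 / 5)) ^ 4 * ((13 / 10) - t) ^ 0)) +
      (21861683200 / 151959) * ((p - (211 / 400)) ^ 3 * ((31 / 50) - p) ^ 0 * ((t - (6 / 5)) ^ 0 * ((13 / 10) - t) ^ 4)) +
      (86963967200 / 151959) * ((p - (211 / 400)) ^ 3 * ((31 / 50) - p) ^ 0 * ((t - (6 / 5)) ^ 1 * ((13 / 10) - t) ^ 3)) +
      (42368050400 / 50653) * ((p - (211 / 400)) ^ 3 * ((31 / 50) - p) ^ 0 * ((t - (6 / 5)) ^ 2 * ((13 / 10) - t) ^ 2)) +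
      (27024210400 / 50653) * ((p - (211 / 400)) ^ 3 * ((31 / 50) - p) ^ 0 * ((t - (6 / 5)) ^ 3 * ((13 / 10) - t) ^ 1)) +
      (6366097400 / 50653) * ((p - (211 / 400)) ^ 3 * ((31 / 50) - p) ^ 0 * ((t - (6 / 5)) ^ 4 * ((13 / 10) - t) ^ 0)) := by
    ring
  have h1 : 0 ≤ p - (211 / 400) := by linarith
  have h2 : 0 ≤ (31 / 50) - p := by linarith
  have h3 : 0 ≤ t - (6 / 5) := by linarith
  have h4 : 0 ≤ (13 / 10) - t := by linarith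
  have h5 : 0 ≤ 8 * (((15475 / 10000 - p) / 2) * ((15475 / 10000 - p) / 2)) * ((2 - t) ^ 4 / 12) - (1 - t * p) * ((p + ((15475 / 10000 - p) / 2) + ((15475 / 10000 - p) / 2) - t) ^ 2 + (1 - p ^ 2 - ((15475 / 10000 - p) / 2) ^ 2 - ((15475 / 10000 - p) / 2) ^ 2) / 3) - (3 / 5000) := by
    rw [h]
    positivity
  linarith

theorem t35_f1b {t p : ℝ} (hp0 : (211 / 400) ≤ p) (hp1 : p ≤ (31 / 50)) (ht0 : (13 / 10) ≤ t)
    (ht1 : t ≤ (27 / 20)) : (33 / 100000) ≤ 8 * (((15475 / 10000 - p) / 2) * ((15475 / 10000 - p) / 2)) * ((2 - t) ^ 4 / 12) - (1 - t * p) * ((p + ((15475 / 10000 - p) / 2) + ((15475 / 10000 - p) / 2) - t) ^ 2 + (1 - p ^ 2 - ((15475 / 10000 - p) / 2) ^ 2 - ((15475 / 10000 - p) / 2) ^ 2) / 3) := by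
  have h : 8 * (((15475 / 10000 - p) / 2) * ((15475 / 10000 - p) / 2)) * ((2 - t) ^ 4 / 12) - (1 - t * p) * ((p + ((15475 / 10000 - p) / 2) + ((15475 / 10000 - p) / 2) - t) ^ 2 + (1 - p ^ 2 - ((15475 / 10000 - p) / 2) ^ 2 - ((15475 / 10000 - p) / 2) ^ 2) / 3) - (33 / 100000) =
      (9644601600 / 50653) * ((p - (211 / 400)) ^ 0 * ((31 / 50) - p) ^ 3 * ((t - (13 / 10)) ^ 0 * ((27 / 20) - t) ^ 4)) +
      (31103068800 / 50653) * ((p - (211 / 400)) ^ 0 * ((31 / 50) - p) ^ 3 * ((t - (13 / 10)) ^ 1 * ((27 / 20) - t) ^ 3)) +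
      (33763094400 / 50653) * ((p - (211 / 400)) ^ 0 * ((31 / 50) - p) ^ 3 * ((t - (13 / 10)) ^ 2 * ((27 / 20) - t) ^ 2)) +
      (347273600 / 1369) * ((p - (211 / 400)) ^ 0 * ((31 / 50) - p) ^ 3 * ((t - (13 / 10)) ^ 3 * ((27 / 20) - t) ^ 1)) +
      (555593600 / 50653) * ((p - (211 / 400)) ^ 0 * ((31 / 50) - p) ^ 3 * ((t - (13 / 10)) ^ 4 * ((27 / 20) - t) ^ 0)) +
      (113235552000 / 50653) * ((p - (211 / 400)) ^ 1 * ((31 / 50) - p) ^ 2 * ((t - (13 / 10)) ^ 0 * ((27 / 20) - t) ^ 4)) +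
      (1283771600000 / 151959) * ((p - (211 / 400)) ^ 1 * ((31 / 50) - p) ^ 2 * ((t - (13 / 10)) ^ 1 * ((27 / 20) - t) ^ 3)) +
      (598861968000 / 50653) * ((p - (211 / 400)) ^ 1 * ((31 / 50) - p) ^ 2 * ((t - (13 / 10)) ^ 2 * ((27 / 20) - t) ^ 2)) +
      (9926672000 / 1369) * ((p - (211 / 400)) ^ 1 * ((31 / 50) - p) ^ 2 * ((t - (13 / 10)) ^ 3 * ((27 / 20) - t) ^ 1)) +
      (249433472000 / 151959) * ((p - (211 / 400)) ^ 1 * ((31 / 50) - p) ^ 2 * ((t - (13 / 10)) ^ 4 * ((27 / 20) - t) ^ 0)) +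
      (213481220800 / 50653) * ((p - (211 / 400)) ^ 2 * ((31 / 50) - p) ^ 1 * ((t - (13 / 10)) ^ 0 * ((27 / 20) - t) ^ 4)) +
      (2472317775200 / 151959) * ((p - (211 / 400)) ^ 2 * ((31 / 50) - p) ^ 1 * ((t - (13 / 10)) ^ 1 * ((27 / 20) - t) ^ 3)) +
      (1185580647200 / 50653) * ((p - (211 / 400)) ^ 2 * ((31 / 50) - p) ^ 1 * ((t - (13 / 10)) ^ 2 * ((27 / 20) - t) ^ 2)) +
      (61085410400 / 4107) * ((p - (211 / 400)) ^ 2 * ((31 / 50) - p) ^ 1 * ((t - (13 / 10)) ^ 3 * ((27 / 20) - t) ^ 1)) +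
      (178460143800 / 50653) * ((p - (211 / 400)) ^ 2 * ((31 / 50) - p) ^ 1 * ((t - (13 / 10)) ^ 4 * ((27 / 20) - t) ^ 0)) +
      (104622358400 / 50653) * ((p - (211 / 400)) ^ 3 * ((31 / 50) - p) ^ 0 * ((t - (13 / 10)) ^ 0 * ((27 / 20) - t) ^ 4)) +
      (406010867200 / 50653) * ((p - (211 / 400)) ^ 3 * ((31 / 50) - p) ^ 0 * ((t - (13 / 10)) ^ 1 * ((27 / 20) - t) ^ 3)) +
      (588266465600 / 50653) * ((p - (211 / 400)) ^ 3 * ((31 / 50) - p) ^ 0 * ((t - (13 / 10)) ^ 2 * ((27 / 20) - t) ^ 2)) +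
      (30589419200 / 4107) * ((p - (211 / 400)) ^ 3 * ((31 / 50) - p) ^ 0 * ((t - (13 / 10)) ^ 3 * ((27 / 20) - t) ^ 1)) +
      (271202168200 / 151959) * ((p - (211 / 400)) ^ 3 * ((31 / 50) - p) ^ 0 * ((t - (13 / 10)) ^ 4 * ((27 / 20) - t) ^ 0)) := by
    ring
  have h1 : 0 ≤ p - (211 / 400) := by linarith
  have h2 : 0 ≤ (31 / 50) - p := by linarith
  have h3 : 0 ≤ t - (13 / 10) := by linarith
  have h4 : 0 ≤ (27 / 20) - t := by linarith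
  have h5 : 0 ≤ 8 * (((15475 / 10000 - p) / 2) * ((15475 / 10000 - p) / 2)) * ((2 - t) ^ 4 / 12) - (1 - t * p) * ((p + ((15475 / 10000 - p) / 2) + ((15475 / 10000 - p) / 2) - t) ^ 2 + (1 - p ^ 2 - ((15475 / 10000 - p) / 2) ^ 2 - ((15475 / 10000 - p) / 2) ^ 2) / 3) - (33 / 100000) := by
    rw [h]
    positivity
  linarith

theorem t35_f2a {t p : ℝ} (hp0 : (211 / 400) ≤ p) (hp1 : p ≤ (31 / 50)) (ht0 : (6 / 5) ≤ t)
    (ht1 : t ≤ (13 / 10)) : (3 / 5000) ≤ 8 * (p * p) * ((2 - t) ^ 4 / 12) - (1 - t * p) * ((p + p + p - t) ^ 2 + (1 - p ^ 2 - p ^ 2 - p ^ 2) / 3) := by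
  have h : 8 * (p * p) * ((2 - t) ^ 4 / 12) - (1 - t * p) * ((p + p + p - t) ^ 2 + (1 - p ^ 2 - p ^ 2 - p ^ 2) / 3) - (3 / 5000) =
      (2831660800 / 151959) * ((p - (211 / 400)) ^ 0 * ((31 / 50) - p) ^ 3 * ((t - (6 / 5)) ^ 0 * ((13 / 10) - t) ^ 4)) +
      (12684500800 / 151959) * ((p - (211 / 400)) ^ 0 * ((31 / 50) - p) ^ 3 * ((t - (6 / 5)) ^ 1 * ((13 / 10) - t) ^ 3)) +
      (6648689600 / 50653) * ((p - (211 / 400)) ^ 0 * ((31 / 50) - p) ^ 3 * ((t - (6 / 5)) ^ 2 * ((13 / 10) - t) ^ 2)) +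
      (4346113600 / 50653) * ((p - (211 / 400)) ^ 0 * ((31 / 50) - p) ^ 3 * ((t - (6 / 5)) ^ 3 * ((13 / 10) - t) ^ 1)) +
      (2980728800 / 151959) * ((p - (211 / 400)) ^ 0 * ((31 / 50) - p) ^ 3 * ((t - (6 / 5)) ^ 4 * ((13 / 10) - t) ^ 0)) +
      (21755545600 / 151959) * ((p - (211 / 400)) ^ 1 * ((31 / 50) - p) ^ 2 * ((t - (6 / 5)) ^ 0 * ((13 / 10) - t) ^ 4)) +
      (34503667200 / 50653) * ((p - (211 / 400)) ^ 1 * ((31 / 50) - p) ^ 2 * ((t - (6 / 5)) ^ 1 * ((13 / 10) - t) ^ 3)) +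
      (58865155200 / 50653) * ((p - (211 / 400)) ^ 1 * ((31 / 50) - p) ^ 2 * ((t - (6 / 5)) ^ 2 * ((13 / 10) - t) ^ 2)) +
      (129077177600 / 151959) * ((p - (211 / 400)) ^ 1 * ((31 / 50) - p) ^ 2 * ((t - (6 / 5)) ^ 3 * ((13 / 10) - t) ^ 1)) +
      (34356509600 / 151959) * ((p - (211 / 400)) ^ 1 * ((31 / 50) - p) ^ 2 * ((t - (6 / 5)) ^ 4 * ((13 / 10) - t) ^ 0)) +
      (15714304000 / 151959) * ((p - (211 / 400)) ^ 2 * ((31 / 50) - p) ^ 1 * ((t - (6 / 5)) ^ 0 * ((13 / 10) - t) ^ 4)) +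
      (86659840000 / 151959) * ((p - (211 / 400)) ^ 2 * ((31 / 50) - p) ^ 1 * ((t - (6 / 5)) ^ 1 * ((13 / 10) - t) ^ 3)) +
      (53890816000 / 50653) * ((p - (211 / 400)) ^ 2 * ((31 / 50) - p) ^ 1 * ((t - (6 / 5)) ^ 2 * ((13 / 10) - t) ^ 2)) +
      (125362496000 / 151959) * ((p - (211 / 400)) ^ 2 * ((31 / 50) - p) ^ 1 * ((t - (6 / 5)) ^ 3 * ((13 / 10) - t) ^ 1)) +
      (11589504000 / 50653) * ((p - (211 / 400)) ^ 2 * ((31 / 50) - p) ^ 1 * ((t - (6 / 5)) ^ 4 * ((13 / 10) - t) ^ 0)) +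
      (11378483200 / 151959) * ((p - (211 / 400)) ^ 3 * ((31 / 50) - p) ^ 0 * ((t - (6 / 5)) ^ 0 * ((13 / 10) - t) ^ 4)) +
      (55401267200 / 151959) * ((p - (211 / 400)) ^ 3 * ((31 / 50) - p) ^ 0 * ((t - (6 / 5)) ^ 1 * ((13 / 10) - t) ^ 3)) +
      (32066150400 / 50653) * ((p - (211 / 400)) ^ 3 * ((31 / 50) - p) ^ 0 * ((t - (6 / 5)) ^ 2 * ((13 / 10) - t) ^ 2)) +
      (23774310400 / 50653) * ((p - (211 / 400)) ^ 3 * ((31 / 50) - p) ^ 0 * ((t - (6 / 5)) ^ 3 * ((13 / 10) - t) ^ 1)) +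
      (6398822400 / 50653) * ((p - (211 / 400)) ^ 3 * ((31 / 50) - p) ^ 0 * ((t - (6 / 5)) ^ 4 * ((13 / 10) - t) ^ 0)) := by
    ring
  have h1 : 0 ≤ p - (211 / 400) := by linarith
  have h2 : 0 ≤ (31 / 50) - p := by linarith
  have h3 : 0 ≤ t - (6 / 5) := by linarith
  have h4 : 0 ≤ (13 / 10) - t := by linarith
  have h5 : 0 ≤ 8 * (p * p) * ((2 - t) ^ 4 / 12) - (1 - t * p) * ((p + p + p - t) ^ 2 + (1 - p ^ 2 - p ^ 2 - p ^ 2) / 3) - (3 / 5000) := by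
    rw [h]
    positivity
  linarith

theorem t35_f2b {t p : ℝ} (hp0 : (211 / 400) ≤ p) (hp1 : p ≤ (31 / 50)) (ht0 : (13 / 10) ≤ t)
    (ht1 : t ≤ (27 / 20)) : (33 / 100000) ≤ 8 * (p * p) * ((2 - t) ^ 4 / 12) - (1 - t * p) * ((p + p + p - t) ^ 2 + (1 - p ^ 2 - p ^ 2 - p ^ 2) / 3) := by
  have h : 8 * (p * p) * ((2 - t) ^ 4 / 12) - (1 - t * p) * ((p + p + p - t) ^ 2 + (1 - p ^ 2 - p ^ 2 - p ^ 2) / 3) - (33 / 100000) =
      (55986060800 / 151959) * ((p - (211 / 400)) ^ 0 * ((31 / 50) - p) ^ 3 * ((t - (13 / 10)) ^ 0 * ((27 / 20) - t) ^ 4)) +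
      (71673612800 / 50653) * ((p - (211 / 400)) ^ 0 * ((31 / 50) - p) ^ 3 * ((t - (13 / 10)) ^ 1 * ((27 / 20) - t) ^ 3)) +
      (101335942400 / 50653) * ((p - (211 / 400)) ^ 0 * ((31 / 50) - p) ^ 3 * ((t - (13 / 10)) ^ 2 * ((27 / 20) - t) ^ 2)) +
      (186928441600 / 151959) * ((p - (211 / 400)) ^ 0 * ((31 / 50) - p) ^ 3 * ((t - (13 / 10)) ^ 3 * ((27 / 20) - t) ^ 1)) +
      (41991008800 / 151959) * ((p - (211 / 400)) ^ 0 * ((31 / 50) - p) ^ 3 * ((t - (13 / 10)) ^ 4 * ((27 / 20) - t) ^ 0)) +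
      (574587353600 / 151959) * ((p - (211 / 400)) ^ 1 * ((31 / 50) - p) ^ 2 * ((t - (13 / 10)) ^ 0 * ((27 / 20) - t) ^ 4)) +
      (2365140300800 / 151959) * ((p - (211 / 400)) ^ 1 * ((31 / 50) - p) ^ 2 * ((t - (13 / 10)) ^ 1 * ((27 / 20) - t) ^ 3)) +
      (1209969580800 / 50653) * ((p - (211 / 400)) ^ 1 * ((31 / 50) - p) ^ 2 * ((t - (13 / 10)) ^ 2 * ((27 / 20) - t) ^ 2)) +
      (820831622400 / 50653) * ((p - (211 / 400)) ^ 1 * ((31 / 50) - p) ^ 2 * ((t - (13 / 10)) ^ 3 * ((27 / 20) - t) ^ 1)) +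
      (623258413600 / 151959) * ((p - (211 / 400)) ^ 1 * ((31 / 50) - p) ^ 2 * ((t - (13 / 10)) ^ 4 * ((27 / 20) - t) ^ 0)) +
      (193726464000 / 50653) * ((p - (211 / 400)) ^ 2 * ((31 / 50) - p) ^ 1 * ((t - (13 / 10)) ^ 0 * ((27 / 20) - t) ^ 4)) +
      (2434409984000 / 151959) * ((p - (211 / 400)) ^ 2 * ((31 / 50) - p) ^ 1 * ((t - (13 / 10)) ^ 1 * ((27 / 20) - t) ^ 3)) +
      (1264312576000 / 50653) * ((p - (211 / 400)) ^ 2 * ((31 / 50) - p) ^ 1 * ((t - (13 / 10)) ^ 2 * ((27 / 20) - t) ^ 2)) +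
      (2606706304000 / 151959) * ((p - (211 / 400)) ^ 2 * ((31 / 50) - p) ^ 1 * ((t - (13 / 10)) ^ 3 * ((27 / 20) - t) ^ 1)) +
      (667132096000 / 151959) * ((p - (211 / 400)) ^ 2 * ((31 / 50) - p) ^ 1 * ((t - (13 / 10)) ^ 4 * ((27 / 20) - t) ^ 0)) +
      (105145958400 / 50653) * ((p - (211 / 400)) ^ 3 * ((31 / 50) - p) ^ 0 * ((t - (13 / 10)) ^ 0 * ((27 / 20) - t) ^ 4)) +
      (435151667200 / 50653) * ((p - (211 / 400)) ^ 3 * ((31 / 50) - p) ^ 0 * ((t - (13 / 10)) ^ 1 * ((27 / 20) - t) ^ 3)) +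
      (671123865600 / 50653) * ((p - (211 / 400)) ^ 3 * ((31 / 50) - p) ^ 0 * ((t - (13 / 10)) ^ 2 * ((27 / 20) - t) ^ 2)) +
      (1371755110400 / 151959) * ((p - (211 / 400)) ^ 3 * ((31 / 50) - p) ^ 0 * ((t - (13 / 10)) ^ 3 * ((27 / 20) - t) ^ 1)) +
      (348449843200 / 151959) * ((p - (211 / 400)) ^ 3 * ((31 / 50) - p) ^ 0 * ((t - (13 / 10)) ^ 4 * ((27 / 20) - t) ^ 0)) := by
    ring
  have h1 : 0 ≤ p - (211 / 400) := by linarith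
  have h2 : 0 ≤ (31 / 50) - p := by linarith
  have h3 : 0 ≤ t - (13 / 10) := by linarith
  have h4 : 0 ≤ (27 / 20) - t := by linarith
  have h5 : 0 ≤ 8 * (p * p) * ((2 - t) ^ 4 / 12) - (1 - t * p) * ((p + p + p - t) ^ 2 + (1 - p ^ 2 - p ^ 2 - p ^ 2) / 3) - (33 / 100000) := by
    rw [h]
    positivity
  linarith

theorem t35_f3a {t p : ℝ} (hp0 : (211 / 400) ≤ p) (hp1 : p ≤ (31 / 50)) (ht0 : (6 / 5) ≤ t)
    (ht1 : t ≤ (13 / 10)) : (3 / 5000) ≤ 8 * (p * (15475 / 10000 - p - p)) * ((2 - t) ^ 4 / 12) - (1 - t * p) * ((p + p + (15475 / 10000 - p - p) - t) ^ 2 + (1 - p ^ 2 - p ^ 2 - (15475 / 10000 - p - p) ^ 2) / 3) := by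
  have h : 8 * (p * (15475 / 10000 - p - p)) * ((2 - t) ^ 4 / 12) - (1 - t * p) * ((p + p + (15475 / 10000 - p - p) - t) ^ 2 + (1 - p ^ 2 - p ^ 2 - (15475 / 10000 - p - p) ^ 2) / 3) - (3 / 5000) =
      (923443200 / 50653) * ((p - (211 / 400)) ^ 0 * ((31 / 50) - p) ^ 3 * ((t - (6 / 5)) ^ 0 * ((13 / 10) - t) ^ 4)) +
      (10964057600 / 151959) * ((p - (211 / 400)) ^ 0 * ((31 / 50) - p) ^ 3 * ((t - (6 / 5)) ^ 1 * ((13 / 10) - t) ^ 3)) +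
      (4984739200 / 50653) * ((p - (211 / 400)) ^ 0 * ((31 / 50) - p) ^ 3 * ((t - (6 / 5)) ^ 2 * ((13 / 10) - t) ^ 2)) +
      (8046265600 / 151959) * ((p - (211 / 400)) ^ 0 * ((31 / 50) - p) ^ 3 * ((t - (6 / 5)) ^ 3 * ((13 / 10) - t) ^ 1)) +
      (1319029600 / 151959) * ((p - (211 / 400)) ^ 0 * ((31 / 50) - p) ^ 3 * ((t - (6 / 5)) ^ 4 * ((13 / 10) - t) ^ 0)) +
      (24083052800 / 151959) * ((p - (211 / 400)) ^ 1 * ((31 / 50) - p) ^ 2 * ((t - (6 / 5)) ^ 0 * ((13 / 10) - t) ^ 4)) +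
      (97705220800 / 151959) * ((p - (211 / 400)) ^ 1 * ((31 / 50) - p) ^ 2 * ((t - (6 / 5)) ^ 1 * ((13 / 10) - t) ^ 3)) +
      (47669617600 / 50653) * ((p - (211 / 400)) ^ 1 * ((31 / 50) - p) ^ 2 * ((t - (6 / 5)) ^ 2 * ((13 / 10) - t) ^ 2)) +
      (89471028800 / 151959) * ((p - (211 / 400)) ^ 1 * ((31 / 50) - p) ^ 2 * ((t - (6 / 5)) ^ 3 * ((13 / 10) - t) ^ 1)) +
      (20177444800 / 151959) * ((p - (211 / 400)) ^ 1 * ((31 / 50) - p) ^ 2 * ((t - (6 / 5)) ^ 4 * ((13 / 10) - t) ^ 0)) +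
      (14007140800 / 50653) * ((p - (211 / 400)) ^ 2 * ((31 / 50) - p) ^ 1 * ((t - (6 / 5)) ^ 0 * ((13 / 10) - t) ^ 4)) +
      (173859612400 / 151959) * ((p - (211 / 400)) ^ 2 * ((31 / 50) - p) ^ 1 * ((t - (6 / 5)) ^ 1 * ((13 / 10) - t) ^ 3)) +
      (87113378800 / 50653) * ((p - (211 / 400)) ^ 2 * ((31 / 50) - p) ^ 1 * ((t - (6 / 5)) ^ 2 * ((13 / 10) - t) ^ 2)) +
      (169884712400 / 151959) * ((p - (211 / 400)) ^ 2 * ((31 / 50) - p) ^ 1 * ((t - (6 / 5)) ^ 3 * ((13 / 10) - t) ^ 1)) +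
      (40467016400 / 151959) * ((p - (211 / 400)) ^ 2 * ((31 / 50) - p) ^ 1 * ((t - (6 / 5)) ^ 4 * ((13 / 10) - t) ^ 0)) +
      (17061683200 / 151959) * ((p - (211 / 400)) ^ 3 * ((31 / 50) - p) ^ 0 * ((t - (6 / 5)) ^ 0 * ((13 / 10) - t) ^ 4)) +
      (72226467200 / 151959) * ((p - (211 / 400)) ^ 3 * ((31 / 50) - p) ^ 0 * ((t - (6 / 5)) ^ 1 * ((13 / 10) - t) ^ 3)) +
      (36830550400 / 50653) * ((p - (211 / 400)) ^ 3 * ((31 / 50) - p) ^ 0 * ((t - (6 / 5)) ^ 2 * ((13 / 10) - t) ^ 2)) +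
      (72960131200 / 151959) * ((p - (211 / 400)) ^ 3 * ((31 / 50) - p) ^ 0 * ((t - (6 / 5)) ^ 3 * ((13 / 10) - t) ^ 1)) +
      (17657667200 / 151959) * ((p - (211 / 400)) ^ 3 * ((31 / 50) - p) ^ 0 * ((t - (6 / 5)) ^ 4 * ((13 / 10) - t) ^ 0)) := by
    ring
  have h1 : 0 ≤ p - (211 / 400) := by linarith
  have h2 : 0 ≤ (31 / 50) - p := by linarith
  have h3 : 0 ≤ t - (6 / 5) := by linarith
  have h4 : 0 ≤ (13 / 10) - t := by linarith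
  have h5 : 0 ≤ 8 * (p * (15475 / 10000 - p - p)) * ((2 - t) ^ 4 / 12) - (1 - t * p) * ((p + p + (15475 / 10000 - p - p) - t) ^ 2 + (1 - p ^ 2 - p ^ 2 - (15475 / 10000 - p - p) ^ 2) / 3) - (3 / 5000) := by
    rw [h]
    positivity
  linarith

theorem t35_f3b {t p : ℝ} (hp0 : (211 / 400) ≤ p) (hp1 : p ≤ (31 / 50)) (ht0 : (13 / 10) ≤ t)
    (ht1 : t ≤ (27 / 20)) : (33 / 100000) ≤ 8 * (p * (15475 / 10000 - p - p)) * ((2 - t) ^ 4 / 12) - (1 - t * p) * ((p + p + (15475 / 10000 - p - p) - t) ^ 2 + (1 - p ^ 2 - p ^ 2 - (15475 / 10000 - p - p) ^ 2) / 3) := by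
  have h : 8 * (p * (15475 / 10000 - p - p)) * ((2 - t) ^ 4 / 12) - (1 - t * p) * ((p + p + (15475 / 10000 - p - p) - t) ^ 2 + (1 - p ^ 2 - p ^ 2 - (15475 / 10000 - p - p) ^ 2) / 3) - (33 / 100000) =
      (29398873600 / 151959) * ((p - (211 / 400)) ^ 0 * ((31 / 50) - p) ^ 3 * ((t - (13 / 10)) ^ 0 * ((27 / 20) - t) ^ 4)) +
      (95434316800 / 151959) * ((p - (211 / 400)) ^ 0 * ((31 / 50) - p) ^ 3 * ((t - (13 / 10)) ^ 1 * ((27 / 20) - t) ^ 3)) +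
      (34942700800 / 50653) * ((p - (211 / 400)) ^ 0 * ((31 / 50) - p) ^ 3 * ((t - (13 / 10)) ^ 2 * ((27 / 20) - t) ^ 2)) +
      (41112147200 / 151959) * ((p - (211 / 400)) ^ 0 * ((31 / 50) - p) ^ 3 * ((t - (13 / 10)) ^ 3 * ((27 / 20) - t) ^ 1)) +
      (784247200 / 50653) * ((p - (211 / 400)) ^ 0 * ((31 / 50) - p) ^ 3 * ((t - (13 / 10)) ^ 4 * ((27 / 20) - t) ^ 0)) +
      (347722316800 / 151959) * ((p - (211 / 400)) ^ 1 * ((31 / 50) - p) ^ 2 * ((t - (13 / 10)) ^ 0 * ((27 / 20) - t) ^ 4)) +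
      (1320799270400 / 151959) * ((p - (211 / 400)) ^ 1 * ((31 / 50) - p) ^ 2 * ((t - (13 / 10)) ^ 1 * ((27 / 20) - t) ^ 3)) +
      (619568550400 / 50653) * ((p - (211 / 400)) ^ 1 * ((31 / 50) - p) ^ 2 * ((t - (13 / 10)) ^ 2 * ((27 / 20) - t) ^ 2)) +
      (1147121113600 / 151959) * ((p - (211 / 400)) ^ 1 * ((31 / 50) - p) ^ 2 * ((t - (13 / 10)) ^ 3 * ((27 / 20) - t) ^ 1)) +
      (261585516800 / 151959) * ((p - (211 / 400)) ^ 1 * ((31 / 50) - p) ^ 2 * ((t - (13 / 10)) ^ 4 * ((27 / 20) - t) ^ 0)) +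
      (672355462400 / 151959) * ((p - (211 / 400)) ^ 2 * ((31 / 50) - p) ^ 1 * ((t - (13 / 10)) ^ 0 * ((27 / 20) - t) ^ 4)) +
      (2625288675200 / 151959) * ((p - (211 / 400)) ^ 2 * ((31 / 50) - p) ^ 1 * ((t - (13 / 10)) ^ 1 * ((27 / 20) - t) ^ 3)) +
      (1273228547200 / 50653) * ((p - (211 / 400)) ^ 2 * ((31 / 50) - p) ^ 1 * ((t - (13 / 10)) ^ 2 * ((27 / 20) - t) ^ 2)) +
      (2454996284800 / 151959) * ((p - (211 / 400)) ^ 2 * ((31 / 50) - p) ^ 1 * ((t - (13 / 10)) ^ 3 * ((27 / 20) - t) ^ 1)) +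
      (196109368800 / 50653) * ((p - (211 / 400)) ^ 2 * ((31 / 50) - p) ^ 1 * ((t - (13 / 10)) ^ 4 * ((27 / 20) - t) ^ 0)) +
      (290817075200 / 151959) * ((p - (211 / 400)) ^ 3 * ((31 / 50) - p) ^ 0 * ((t - (13 / 10)) ^ 0 * ((27 / 20) - t) ^ 4)) +
      (1144632601600 / 151959) * ((p - (211 / 400)) ^ 3 * ((31 / 50) - p) ^ 0 * ((t - (13 / 10)) ^ 1 * ((27 / 20) - t) ^ 3)) +
      (559741465600 / 50653) * ((p - (211 / 400)) ^ 3 * ((31 / 50) - p) ^ 0 * ((t - (13 / 10)) ^ 2 * ((27 / 20) - t) ^ 2)) +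
      (1088833510400 / 151959) * ((p - (211 / 400)) ^ 3 * ((31 / 50) - p) ^ 0 * ((t - (13 / 10)) ^ 3 * ((27 / 20) - t) ^ 1)) +
      (263449043200 / 151959) * ((p - (211 / 400)) ^ 3 * ((31 / 50) - p) ^ 0 * ((t - (13 / 10)) ^ 4 * ((27 / 20) - t) ^ 0)) := by
    ring
  have h1 : 0 ≤ p - (211 / 400) := by linarith
  have h2 : 0 ≤ (31 / 50) - p := by linarith
  have h3 : 0 ≤ t - (13 / 10) := by linarith
  have h4 : 0 ≤ (27 / 20) - t := by linarith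
  have h5 : 0 ≤ 8 * (p * (15475 / 10000 - p - p)) * ((2 - t) ^ 4 / 12) - (1 - t * p) * ((p + p + (15475 / 10000 - p - p) - t) ^ 2 + (1 - p ^ 2 - p ^ 2 - (15475 / 10000 - p - p) ^ 2) / 3) - (33 / 100000) := by
    rw [h]
    positivity
  linarith

/-- a concave quadratic is at least the minimum of its end values -/
theorem quad_ge {a b c x x0 x1 d : ℝ} (ha : a ≤ 0) (h0 : x0 ≤ x) (h1 : x ≤ x1)
    (e0 : d ≤ a * x0 ^ 2 + b * x0 + c) (e1 : d ≤ a * x1 ^ 2 + b * x1 + c) :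
    d ≤ a * x ^ 2 + b * x + c := by
  rcases eq_or_lt_of_le (h0.trans h1) with h | h
  · have hx : x = x0 := le_antisymm (by rw [h]; exact h1) h0
    rw [hx]
    exact e0
  · by_contra hcon
    push Not at hcon
    have key : (x1 - x0) * (a * x ^ 2 + b * x + c - d) =
        (x1 - x) * (a * x0 ^ 2 + b * x0 + c - d) + (x - x0) * (a * x1 ^ 2 + b * x1 + c - d) +
          (-a) * ((x - x0) * (x1 - x) * (x1 - x0)) := by
      ring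
    have g1 : 0 ≤ (x1 - x) * (a * x0 ^ 2 + b * x0 + c - d) :=
      mul_nonneg (by linarith) (by linarith)
    have g2 : 0 ≤ (x - x0) * (a * x1 ^ 2 + b * x1 + c - d) :=
      mul_nonneg (by linarith) (by linarith)
    have g3 : 0 ≤ (-a) * ((x - x0) * (x1 - x) * (x1 - x0)) :=
      mul_nonneg (by linarith)
        (mul_nonneg (mul_nonneg (by linarith) (by linarith)) (by linarith))
    have g4 : (x1 - x0) * (a * x ^ 2 + b * x + c - d) < 0 :=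
      mul_neg_of_pos_of_neg (by linarith) (by linarith)
    linarith

/-- reduction of the three-parameter inequality to the three two-parameter families -/
theorem D0_ge {t p q r s d F : ℝ} (hA : 0 ≤ 1 - t * p)
    (hrq : r ≤ q) (hqp : q ≤ p) (hS : s ≤ q + r)
    (e1 : d ≤ 8 * ((s / 2) * (s / 2)) * F -
      (1 - t * p) * ((p + (s / 2) + (s / 2) - t) ^ 2 + (1 - p ^ 2 - (s / 2) ^ 2 - (s / 2) ^ 2) / 3))
    (e2 : d ≤ 8 * (p * p) * F -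
      (1 - t * p) * ((p + p + p - t) ^ 2 + (1 - p ^ 2 - p ^ 2 - p ^ 2) / 3))
    (e3 : d ≤ 8 * (p * (s - p)) * F -
      (1 - t * p) * ((p + p + (s - p) - t) ^ 2 + (1 - p ^ 2 - p ^ 2 - (s - p) ^ 2) / 3)) :
    d ≤ 8 * (q * r) * F -
      (1 - t * p) * ((p + q + r - t) ^ 2 + (1 - p ^ 2 - q ^ 2 - r ^ 2) / 3) := by
  rcases le_total 0 ((1 - t * p) / 6 - 2 * F) with h | h
  · have hc := quad_ge (a := 2 * F - 5 * (1 - t * p) / 6)
      (b := -(2 * (1 - t * p) * (p - t)))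
      (c := -((1 - t * p) * ((p - t) ^ 2 + (1 - p ^ 2) / 3)))
      (x := q + r) (x0 := s) (x1 := 2 * p) (d := d) (by linarith) hS (by linarith)
      (by nlinarith [e1]) (by nlinarith [e2])
    have hw : 0 ≤ ((1 - t * p) / 6 - 2 * F) * (q - r) ^ 2 := mul_nonneg h (sq_nonneg _)
    have hid : 8 * (q * r) * F -
        (1 - t * p) * ((p + q + r - t) ^ 2 + (1 - p ^ 2 - q ^ 2 - r ^ 2) / 3) =
        (2 * F - 5 * (1 - t * p) / 6) * (q + r) ^ 2 + (-(2 * (1 - t * p) * (p - t))) * (q + r) +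
          (-((1 - t * p) * ((p - t) ^ 2 + (1 - p ^ 2) / 3))) +
          ((1 - t * p) / 6 - 2 * F) * (q - r) ^ 2 := by
      ring
    rw [hid]
    linarith
  · have hc := quad_ge (a := -(2 * (1 - t * p) / 3))
      (b := -(2 * (1 - t * p) * (p - t)) - 4 * p * ((1 - t * p) / 6 - 2 * F))
      (c := -((1 - t * p) * ((p - t) ^ 2 + (1 - p ^ 2) / 3)) +
        4 * p ^ 2 * ((1 - t * p) / 6 - 2 * F))
      (x := q + r) (x0 := s) (x1 := 2 * p) (d := d) (by linarith) hS (by linarith)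
      (by nlinarith [e3]) (by nlinarith [e2])
    have hw : (q - r) ^ 2 ≤ (2 * p - (q + r)) ^ 2 := by
      apply pow_le_pow_left₀ (by linarith) (by linarith)
    have hw2 : ((1 - t * p) / 6 - 2 * F) * (2 * p - (q + r)) ^ 2 ≤
        ((1 - t * p) / 6 - 2 * F) * (q - r) ^ 2 := mul_le_mul_of_nonpos_left hw h
    have hid : 8 * (q * r) * F -
        (1 - t * p) * ((p + q + r - t) ^ 2 + (1 - p ^ 2 - q ^ 2 - r ^ 2) / 3) =
        (-(2 * (1 - t * p) / 3)) * (q + r) ^ 2 +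
          (-(2 * (1 - t * p) * (p - t)) - 4 * p * ((1 - t * p) / 6 - 2 * F)) * (q + r) +
          (-((1 - t * p) * ((p - t) ^ 2 + (1 - p ^ 2) / 3)) +
            4 * p ^ 2 * ((1 - t * p) / 6 - 2 * F)) +
          (((1 - t * p) / 6 - 2 * F) * (q - r) ^ 2 -
            ((1 - t * p) / 6 - 2 * F) * (2 * p - (q + r)) ^ 2) := by
      ring
    rw [hid]
    linarith

theorem Kb_le {v s v1 s0 : ℝ} (hv0 : 0 ≤ v) (hv : v ≤ v1) (hs0 : 0 < s0) (hs : s0 ≤ s) :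
    Helper89.SP.Kb v s ≤ 0.1647 * v1 ^ 3 / s0 ^ 4 := by
  have hv1 : 0 ≤ v1 := hv0.trans hv
  unfold Helper89.SP.Kb
  gcongr

/-- the two error terms -/
theorem err_le {c1 A v b g b0 g0 C A0 v1 : ℝ} (hv0 : 0 ≤ v) (hv : v ≤ v1) (hb0 : 0 < b0)
    (hb : b0 ≤ b) (hg0 : 0 < g0) (hg : g0 ≤ g) (hc : c1 ≤ C)
    (hA : A ≤ A0) (hc1 : 0 ≤ c1) (hA1 : 0 ≤ A) :
    c1 * Helper89.SP.Kb v b + A * Helper89.SP.Kb v g ≤
      C * (0.1647 * v1 ^ 3 / b0 ^ 4) + A0 * (0.1647 * v1 ^ 3 / g0 ^ 4) := by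
  have h1 := Kb_le hv0 hv hb0 hb
  have h2 := Kb_le hv0 hv hg0 hg
  have hK : ∀ s0 : ℝ, 0 < s0 → 0 ≤ 0.1647 * v1 ^ 3 / s0 ^ 4 := fun s0 hs => by
    have : 0 ≤ v1 := hv0.trans hv
    positivity
  have k1 : c1 * Helper89.SP.Kb v b ≤ C * (0.1647 * v1 ^ 3 / b0 ^ 4) :=
    (mul_le_mul_of_nonneg_left h1 hc1).trans (mul_le_mul_of_nonneg_right hc (hK b0 hb0))
  have k2 : A * Helper89.SP.Kb v g ≤ A0 * (0.1647 * v1 ^ 3 / g0 ^ 4) :=
    (mul_le_mul_of_nonneg_left h2 hA1).trans (mul_le_mul_of_nonneg_right hA (hK g0 hg0))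
  linarith

end Pool.Agent.Helper8.SPNum

namespace Pool.Agent.Helper89.SP

open Pool.Agent.Helper8.SPNum

theorem fact_T3_5 {t p q r : ℝ} (hp0 : 0.5275 ≤ p) (hp1 : p ≤ 0.62) (ht0 : 1.2 ≤ t) (ht1 : t ≤ 1.35)
    (hr : 0 < r) (hrq : r ≤ q) (hqp : q ≤ p) (hpq : p + q ≤ t) (hsq : p ^ 2 + q ^ 2 + r ^ 2 ≤ 1)
    (hS : S5 p ≤ q + r) : Beats t p q r (T4 t) := by
  left
  have hp0' : (211 / 400 : ℝ) ≤ p := by norm_num at hp0 ⊢; linarith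
  have hp1' : p ≤ (31 / 50 : ℝ) := by norm_num at hp1 ⊢; linarith
  have hS' : 15475 / 10000 - p ≤ q + r := by
    unfold S5 at hS
    norm_num at hS ⊢
    linarith
  have ht0' : (6 / 5 : ℝ) ≤ t := by norm_num at ht0 ⊢; linarith
  have ht1' : t ≤ (27 / 20 : ℝ) := by norm_num at ht1 ⊢; linarith
  have htp : t * p ≤ 27 / 20 * (31 / 50) :=
    mul_le_mul ht1' hp1' (by linarith) (by norm_num)
  have htp2 : 6 / 5 * (211 / 400) ≤ t * p :=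
    mul_le_mul ht0' hp0' (by norm_num) (by linarith)
  have hA : 0 ≤ 1 - t * p := by norm_num at htp; linarith
  have hv0 : 0 ≤ vv p q r := by
    unfold vv
    linarith
  have hv1 : vv p q r ≤ 0.0672 := by
    unfold vv
    have h1 : (q + r) ^ 2 / 2 ≤ q ^ 2 + r ^ 2 := by nlinarith [sq_nonneg (q - r)]
    have h2 : (15475 / 10000 - p) ^ 2 ≤ (q + r) ^ 2 :=
      pow_le_pow_left₀ (by norm_num; linarith) hS' 2
    nlinarith [mul_nonneg (sub_nonneg.2 hp0') (sub_nonneg.2 hp1')]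
  have hg : (3 / 2 : ℝ) ≤ t - p + q + r := by linarith
  have hmax : max (4 * (t * p) - 2) 0 = 4 * (t * p) - 2 := max_eq_left (by norm_num at htp2; linarith)
  have hc1 : 0 ≤ 4 * (t * p) - 2 := by norm_num at htp2; linarith
  unfold Gi T4
  rw [hmax]
  rcases le_total t (13 / 10) with h | h
  · have hD := D0_ge (F := (2 - t) ^ 4 / 12) hA hrq hqp hS' (t35_f1a hp0' hp1' ht0' h)
      (t35_f2a hp0' hp1' ht0' h) (t35_f3a hp0' hp1' ht0' h)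
    have htp3 : t * p ≤ 13 / 10 * (31 / 50) := mul_le_mul h hp1' (by linarith) (by norm_num)
    have hE := err_le (b0 := 0.58) (g0 := 3 / 2) (b := t + p - q - r) (g := t - p + q + r)
      (c1 := 4 * (t * p) - 2) (A := 1 - t * p) (C := 1.224) (A0 := 0.367) hv0 hv1 (by norm_num)
      (by norm_num; linarith) (by norm_num) hg (by norm_num at htp3 ⊢; linarith)
      (by norm_num at htp2 ⊢; linarith) hc1 hA
    have hN : (1.224 : ℝ) * (0.1647 * 0.0672 ^ 3 / 0.58 ^ 4) +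
        0.367 * (0.1647 * 0.0672 ^ 3 / (3 / 2) ^ 4) < 3 / 5000 := by norm_num
    have hvv : vv p q r = (1 - p ^ 2 - q ^ 2 - r ^ 2) / 3 := rfl
    rw [← hvv] at hD
    linarith
  · have hD := D0_ge (F := (2 - t) ^ 4 / 12) hA hrq hqp hS' (t35_f1b hp0' hp1' h ht1')
      (t35_f2b hp0' hp1' h ht1') (t35_f3b hp0' hp1' h ht1')
    have htp3 : 13 / 10 * (211 / 400) ≤ t * p := mul_le_mul h hp0' (by norm_num) (by linarith)
    have hE := err_le (b0 := 0.68) (g0 := 3 / 2) (b := t + p - q - r) (g := t - p + q + r)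
      (c1 := 4 * (t * p) - 2) (A := 1 - t * p) (C := 1.348) (A0 := 0.3145) hv0 hv1 (by norm_num)
      (by norm_num; linarith) (by norm_num) hg (by norm_num at htp ⊢; linarith)
      (by norm_num at htp3 ⊢; linarith) hc1 hA
    have hN : (1.348 : ℝ) * (0.1647 * 0.0672 ^ 3 / 0.68 ^ 4) +
        0.3145 * (0.1647 * 0.0672 ^ 3 / (3 / 2) ^ 4) < 33 / 100000 := by norm_num
    have hvv : vv p q r = (1 - p ^ 2 - q ^ 2 - r ^ 2) / 3 := rfl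
    rw [← hvv] at hD
    linarith

end Pool.Agent.Helper89.SP

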